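import Pool.Agent.Helper73.HU.St

/-!
# HU module BD: definable subsets of small order type are bounded
-/

set_option autoImplicit false

namespace Pool.Agent.Helper8.HU

open Ordinal Cardinal ZFSet Order Pool.Agent.Helper73.HODC Pool.Agent.Helper73.HE
open Pool.Agent.Helper73.HM Pool.Agent.Helper73.HU

theorem bd (h : StEB) : StBD := by
  intro τ S hτ hS hlt hotp
  by_contra hcon
  push Not at hcon
  have h1 := h τ S hτ hS (fun β hβ => by
    obtain ⟨a, ha, hβa⟩ := hcon β hβ
    exact ⟨a, ha, hβa, hlt a ha⟩)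
  obtain ⟨ζ, hζ, g, hg1, hg2⟩ := hotp
  obtain ⟨b, hb, hbS, e, he1, he2, -⟩ := h1 ζ hζ
  have key : ∀ x, x < ζ → x ≤ g (e x) := by
    intro x
    induction x using WellFoundedLT.induction with
    | ind x ih =>
      intro hx
      refine le_of_forall_lt fun y hy => ?_
      exact (ih y hy (hy.trans hx)).trans_lt
        (hg2 _ (he1 y (hy.trans hx)).1 _ (he1 x hx).1 (he2 y (hy.trans hx) x hx hy))
  have h2 : ζ ≤ g b := by
    refine le_of_forall_lt fun y hy => ?_
    exact (key y hy).trans_lt (hg2 _ (he1 y hy).1 _ hbS (he1 y hy).2)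
  exact absurd (hg1 b hbS) (not_lt.2 h2)

end Pool.Agent.Helper8.HU
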